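import Pool.Agent.H27.L1.H34.GZZ.Targets

/-!
Row MED of the board gzz: Mellin transforms of functions with compact support are entire.
-/

set_option autoImplicit false

namespace Pool.Agent.H27.L1.H84.GZZ

open MeasureTheory Pool.Agent.H27.L1.H34.GA Pool.Agent.H27.L1.H34.GZZ

theorem pf_MED : T_MED := by
  intro m r0 ψ _ hr0 hc hs
  have hr : 0 < r0 := by linarith
  have hli : LocallyIntegrableOn ψ (Set.Ioi 0) := hc.locallyIntegrableOn measurableSet_Ioi
  have h0 : ∀ r : ℝ, 0 < r → (r < r0⁻¹ ∨ r0 < r) → ψ r = 0 := by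
    intro r h h1
    by_contra hn
    have h2 := hs r h hn
    rcases h1 with h1 | h1
    · linarith [h2.1]
    · linarith [h2.2]
  have hd : Differentiable ℂ (mellin ψ) := by
    intro s
    refine mellin_differentiableAt_of_isBigO_rpow (a := s.re + 1) (b := s.re - 1) hli ?_ (by linarith)
      ?_ (by linarith)
    · have h1 : ψ =ᶠ[Filter.atTop] fun _ => (0 : ℂ) := by
        filter_upwards [Filter.eventually_gt_atTop r0] with r h
        exact h0 r (by linarith) (Or.inr h)
      exact h1.trans_isBigO (Asymptotics.isBigO_zero _ _)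
    · have h1 : ψ =ᶠ[nhdsWithin 0 (Set.Ioi 0)] fun _ => (0 : ℂ) := by
        have h2 : Set.Ioo (0 : ℝ) r0⁻¹ ∈ nhdsWithin (0 : ℝ) (Set.Ioi 0) :=
          Ioo_mem_nhdsGT (inv_pos.2 hr)
        filter_upwards [h2] with r h
        exact h0 r h.1 (Or.inl h.2)
      exact h1.trans_isBigO (Asymptotics.isBigO_zero _ _)
  have h2 : MelA m ψ = fun s : ℂ => mellin ψ (-((m : ℂ) * (s + ((m : ℂ) - 1) / 2))) := by
    funext s
    unfold MelA mellin
    apply setIntegral_congr_fun measurableSet_Ioi
    intro r _
    show ψ r * _ = _ • ψ r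
    rw [smul_eq_mul, mul_comm]
  rw [h2]
  exact hd.comp (((differentiable_const _).mul (differentiable_id.add (differentiable_const _))).neg)

end Pool.Agent.H27.L1.H84.GZZ
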